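import Pool.Agent.Helper70.MM.Goals2

/-!
Packet MM-CFACE: a minimum point of the potential of the vertices on the cube lies on an edge.
-/

open MeasureTheory Set Metric
open scoped ENNReal RealInnerProductSpace Topology
open Pool.Agent.Results.MP_91ee6f_gt

namespace Pool.Agent.Helper46.MM

open Pool.Agent.Helper70.MM

lemma dist_move {n : ℕ} (x w : En n) (i : Fin n) (t : ℝ) :
    dist (x + t • (EuclideanSpace.single i (1 : ℝ) : En n)) w =
      Real.sqrt (dist x w ^ 2 + 2 * (x i - w i) * t + t ^ 2) := by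
  rw [dist_eq_norm, show x + t • (EuclideanSpace.single i (1 : ℝ) : En n) - w =
    (x - w) + t • (EuclideanSpace.single i (1 : ℝ) : En n) by abel]
  rw [← Real.sqrt_sq (norm_nonneg ((x - w) + t • (EuclideanSpace.single i (1 : ℝ) : En n))),
    norm_add_sq_real]
  congr 1
  rw [real_inner_smul_right, EuclideanSpace.inner_single_right, norm_smul, dist_eq_norm]
  simp
  ring

lemma qd (ρ z t : ℝ) : HasDerivAt (fun t : ℝ => ρ ^ 2 + 2 * z * t + t ^ 2) (2 * z + 2 * t) t := by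
  have h1 : HasDerivAt (fun t : ℝ => ρ ^ 2 + 2 * z * t) (2 * z) t := by
    simpa using ((hasDerivAt_id t).const_mul (2 * z)).const_add (ρ ^ 2)
  have h2 : HasDerivAt (fun t : ℝ => t ^ 2) (2 * t) t := by
    simpa using hasDerivAt_pow 2 t
  exact h1.add h2

lemma sqd (ρ z t : ℝ) (hq : 0 < ρ ^ 2 + 2 * z * t + t ^ 2) :
    HasDerivAt (fun t : ℝ => Real.sqrt (ρ ^ 2 + 2 * z * t + t ^ 2))
      ((z + t) / Real.sqrt (ρ ^ 2 + 2 * z * t + t ^ 2)) t := by
  have h := (qd ρ z t).sqrt hq.ne'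
  convert h using 1
  rw [show 2 * z + 2 * t = 2 * (z + t) by ring, mul_div_mul_left _ _ (by norm_num : (2 : ℝ) ≠ 0)]

lemma hasDeriv1 (ρ z t : ℝ) (hq : 0 < ρ ^ 2 + 2 * z * t + t ^ 2) :
    HasDerivAt (fun t : ℝ => Real.exp (-Real.sqrt (ρ ^ 2 + 2 * z * t + t ^ 2)))
      (-((z + t) / Real.sqrt (ρ ^ 2 + 2 * z * t + t ^ 2) *
        Real.exp (-Real.sqrt (ρ ^ 2 + 2 * z * t + t ^ 2)))) t := by
  have h := (sqd ρ z t hq).fun_neg.exp
  refine h.congr_deriv ?_
  ring

lemma hasDeriv2 (ρ z : ℝ) (hρ : 0 < ρ) :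
    HasDerivAt (fun t : ℝ => -((z + t) / Real.sqrt (ρ ^ 2 + 2 * z * t + t ^ 2) *
        Real.exp (-Real.sqrt (ρ ^ 2 + 2 * z * t + t ^ 2))))
      (Real.exp (-ρ) / ρ ^ 3 * ((ρ + 1) * z ^ 2 - ρ ^ 2)) 0 := by
  have hq : 0 < ρ ^ 2 + 2 * z * 0 + (0 : ℝ) ^ 2 := by
    rw [mul_zero, add_zero, zero_pow (by norm_num), add_zero]
    positivity
  have hs : Real.sqrt (ρ ^ 2 + 2 * z * 0 + (0 : ℝ) ^ 2) = ρ := by
    rw [mul_zero, add_zero, zero_pow (by norm_num), add_zero, Real.sqrt_sq hρ.le]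
  have h1 := hasDeriv1 ρ z 0 hq
  have h2 := sqd ρ z 0 hq
  have h3 : HasDerivAt (fun t : ℝ => z + t) 1 0 := by
    simpa using (hasDerivAt_id (0 : ℝ)).const_add z
  have h4 := ((h3.fun_div h2 (by rw [hs]; exact hρ.ne')).fun_mul h1).fun_neg
  refine h4.congr_deriv ?_
  simp only [hs, add_zero]
  field_simp
  ring

theorem cface : CFACE := by
  intro n ℓ hℓ hℓ2 x hx hmin i j hij hc
  obtain ⟨hi0, hiℓ, hj0, hjℓ⟩ := hc
  set ρ : Finset (Fin n) → ℝ := fun T => dist x (vert n ℓ T) with hρ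
  set z : Fin n → Finset (Fin n) → ℝ := fun k T => x k - (vert n ℓ T) k with hz
  have hvert : ∀ (T : Finset (Fin n)) (k : Fin n), (vert n ℓ T) k = if k ∈ T then ℓ else 0 := by
    intro T k
    simp [vert]
  have hzb : ∀ (T : Finset (Fin n)) (k : Fin n), 0 < x k → x k < ℓ →
      0 < (z k T) ^ 2 ∧ (z k T) ^ 2 < ℓ ^ 2 := by
    intro T k h1 h2
    simp only [hz, hvert]
    split_ifs
    · constructor
      · have : x k - ℓ ≠ 0 := by linarith
        positivity
      · nlinarith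
    · constructor
      · rw [sub_zero]; positivity
      · rw [sub_zero]; nlinarith
  have hρz : ∀ T : Finset (Fin n), (z i T) ^ 2 + (z j T) ^ 2 ≤ (ρ T) ^ 2 := by
    intro T
    simp only [hρ, hz]
    rw [EuclideanSpace.dist_eq, Real.sq_sqrt (Finset.sum_nonneg fun k _ => by positivity)]
    have hsub : ({i, j} : Finset (Fin n)) ⊆ Finset.univ := Finset.subset_univ _
    have h := Finset.sum_le_sum_of_subset_of_nonneg
      (f := fun k => dist (x k) ((vert n ℓ T) k) ^ 2) hsub (fun k _ _ => by positivity)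
    rw [Finset.sum_pair hij] at h
    simpa [Real.dist_eq, sq_abs] using h
  have hρ0 : ∀ T : Finset (Fin n), 0 < ρ T := by
    intro T
    have h1 := (hzb T i hi0 hiℓ).1
    have h2 := (hzb T j hj0 hjℓ).1
    have h3 := hρz T
    have h4 : 0 ≤ ρ T := dist_nonneg
    by_contra hcon
    have h5 : ρ T = 0 := le_antisymm (not_lt.1 hcon) h4
    rw [h5] at h3
    nlinarith
  -- the function and its derivatives
  set q : Fin n → Finset (Fin n) → ℝ → ℝ := fun k T t => ρ T ^ 2 + 2 * z k T * t + t ^ 2 with hq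
  set G : ℝ → ℝ := fun t => ∑ T : Finset (Fin n),
    (Real.exp (-Real.sqrt (q i T t)) + Real.exp (-Real.sqrt (q j T t))) with hG
  set G1 : ℝ → ℝ := fun t => ∑ T : Finset (Fin n),
    (-((z i T + t) / Real.sqrt (q i T t) * Real.exp (-Real.sqrt (q i T t))) +
      -((z j T + t) / Real.sqrt (q j T t) * Real.exp (-Real.sqrt (q j T t)))) with hG1
  have hev : ∀ᶠ t in 𝓝 (0 : ℝ), ∀ T ∈ (Finset.univ : Finset (Finset (Fin n))),
      0 < q i T t ∧ 0 < q j T t := by
    rw [Filter.eventually_all_finset]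
    intro T _
    have hk : ∀ k : Fin n, ∀ᶠ t in 𝓝 (0 : ℝ), 0 < q k T t := by
      intro k
      have hcont : ContinuousAt (q k T) 0 := by
        simp only [hq]
        fun_prop
      have h0 : 0 < q k T 0 := by
        simp only [hq]
        rw [mul_zero, add_zero, zero_pow (by norm_num), add_zero]
        have := hρ0 T
        positivity
      exact hcont.eventually (lt_mem_nhds h0)
    exact (hk i).and (hk j)
  have hd1 : ∀ᶠ t in 𝓝 (0 : ℝ), HasDerivAt G (G1 t) t := by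
    filter_upwards [hev] with t ht
    simp only [hG, hG1]
    refine HasDerivAt.fun_sum fun T hT => ?_
    exact (hasDeriv1 (ρ T) (z i T) t (ht T hT).1).add (hasDeriv1 (ρ T) (z j T) t (ht T hT).2)
  have hd2 : HasDerivAt G1 (∑ T : Finset (Fin n),
      (Real.exp (-ρ T) / ρ T ^ 3 * ((ρ T + 1) * (z i T) ^ 2 - ρ T ^ 2) +
        Real.exp (-ρ T) / ρ T ^ 3 * ((ρ T + 1) * (z j T) ^ 2 - ρ T ^ 2))) 0 := by
    simp only [hG1]
    refine HasDerivAt.fun_sum fun T _ => ?_
    exact (hasDeriv2 (ρ T) (z i T) (hρ0 T)).add (hasDeriv2 (ρ T) (z j T) (hρ0 T))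
  have hneg : (∑ T : Finset (Fin n),
      (Real.exp (-ρ T) / ρ T ^ 3 * ((ρ T + 1) * (z i T) ^ 2 - ρ T ^ 2) +
        Real.exp (-ρ T) / ρ T ^ 3 * ((ρ T + 1) * (z j T) ^ 2 - ρ T ^ 2))) < 0 := by
    refine Finset.sum_neg (fun T _ => ?_) Finset.univ_nonempty
    have h1 := hzb T i hi0 hiℓ
    have h2 := hzb T j hj0 hjℓ
    have h3 := hρz T
    have h4 := hρ0 T
    have h5 : (ρ T + 1) * ((z i T) ^ 2 + (z j T) ^ 2) < 2 * ρ T ^ 2 := by
      rcases lt_or_ge (ρ T) 1 with h | h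
      · have h6 : (ρ T + 1) * ((z i T) ^ 2 + (z j T) ^ 2) ≤ (ρ T + 1) * ρ T ^ 2 :=
          mul_le_mul_of_nonneg_left h3 (by linarith)
        have h7 : (ρ T + 1) * ρ T ^ 2 < 2 * ρ T ^ 2 :=
          mul_lt_mul_of_pos_right (by linarith) (by positivity)
        linarith
      · have h6 : (z i T) ^ 2 + (z j T) ^ 2 < 1 := by linarith [h1.2, h2.2]
        have h7 : (ρ T + 1) * ((z i T) ^ 2 + (z j T) ^ 2) < (ρ T + 1) * 1 :=
          mul_lt_mul_of_pos_left h6 (by linarith)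
        nlinarith
    have h8 : 0 < Real.exp (-ρ T) / ρ T ^ 3 := by positivity
    rw [← mul_add]
    have h9 : (ρ T + 1) * (z i T) ^ 2 - ρ T ^ 2 + ((ρ T + 1) * (z j T) ^ 2 - ρ T ^ 2) < 0 := by
      nlinarith
    exact mul_neg_of_pos_of_neg h8 h9
  have hderiv : deriv G =ᶠ[𝓝 0] G1 := by
    filter_upwards [hd1] with t ht
    exact ht.deriv
  have hdd : deriv (deriv G) 0 < 0 := by
    rw [hderiv.deriv_eq, hd2.deriv]
    exact hneg
  have hG0 : HasDerivAt G (G1 0) 0 := hd1.self_of_nhds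
  -- local minimum
  have hPV : ∀ (k : Fin n) (t : ℝ), PV n ℓ (x + t • (EuclideanSpace.single k (1 : ℝ) : En n)) =
      ∑ T : Finset (Fin n), Real.exp (-Real.sqrt (q k T t)) := by
    intro k t
    unfold PV
    refine Finset.sum_congr rfl fun T _ => ?_
    rw [dist_move]
  have hPV0 : ∀ k : Fin n, PV n ℓ x = ∑ T : Finset (Fin n), Real.exp (-Real.sqrt (q k T 0)) := by
    intro k
    rw [← hPV k 0, zero_smul, add_zero]
  have hcube : ∀ k : Fin n, 0 < x k → x k < ℓ → ∀ᶠ t in 𝓝 (0 : ℝ),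
      (x + t • (EuclideanSpace.single k (1 : ℝ) : En n)) ∈ cube n ℓ := by
    intro k h1 h2
    have hc1 : ∀ᶠ t in 𝓝 (0 : ℝ), 0 < x k + t := by
      have hcont : ContinuousAt (fun t : ℝ => x k + t) 0 := by fun_prop
      exact hcont.eventually (lt_mem_nhds (by simpa using h1))
    have hc2 : ∀ᶠ t in 𝓝 (0 : ℝ), x k + t < ℓ := by
      have hcont : ContinuousAt (fun t : ℝ => x k + t) 0 := by fun_prop
      exact hcont.eventually (gt_mem_nhds (by simpa using h2))
    filter_upwards [hc1, hc2] with t ht1 ht2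
    intro m
    by_cases hm : m = k
    · subst hm
      simp
      exact ⟨ht1.le, ht2.le⟩
    · simp [hm]
      exact hx m
  have hlm : IsLocalMin G 0 := by
    filter_upwards [hcube i hi0 hiℓ, hcube j hj0 hjℓ] with t ht1 ht2
    have e1 := hmin _ ht1
    have e2 := hmin _ ht2
    rw [hPV i t, hPV0 i] at e1
    rw [hPV j t, hPV0 j] at e2
    simp only [hG]
    rw [Finset.sum_add_distrib, Finset.sum_add_distrib]
    linarith
  have hd0 : deriv G 0 = 0 := hlm.deriv_eq_zero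
  have hlM : IsLocalMax G 0 := isLocalMax_of_deriv_deriv_neg hdd hd0 hG0.continuousAt
  have hconst : G =ᶠ[𝓝 0] fun _ => G 0 := by
    filter_upwards [hlm, hlM] with t h1 h2
    exact le_antisymm h2 h1
  have hdc : deriv G =ᶠ[𝓝 0] fun _ => 0 := by
    have h := hconst.eventuallyEq_nhds
    filter_upwards [h] with t ht
    rw [ht.deriv_eq]
    simp
  rw [hdc.deriv_eq] at hdd
  simp at hdd

end Pool.Agent.Helper46.MM
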